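import Mathlib
import Pool.Agent.Run7.h940.PACH.Iface

/-!
# PACH, piece PAT: one sign pattern in dimension `n + 1`
-/

set_option autoImplicit false

namespace Run7.h923.PACH

open Finset Module Run7.h940.PACH

lemma half_nonneg {V : Type} [AddCommGroup V] [Module ℝ V] (F : Finset V) (f : V →ₗ[ℝ] ℝ) (s : ℝ)
    (hs : s = 1 ∨ s = -1)
    (h1 : 2 * ({u ∈ (F : Set V) | 0 < f u}).ncard ≤ F.card)
    (h2 : 2 * ({u ∈ (F : Set V) | f u < 0}).ncard ≤ F.card) :
    F.card ≤ 2 * (F.filter (fun u => 0 ≤ s * f u)).card := by
  classical
  have e1 : ({u ∈ (F : Set V) | 0 < f u}).ncard = (F.filter (fun u => 0 < f u)).card := by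
    rw [← Set.ncard_coe_finset]
    congr 1
    ext u
    simp
  have e2 : ({u ∈ (F : Set V) | f u < 0}).ncard = (F.filter (fun u => f u < 0)).card := by
    rw [← Set.ncard_coe_finset]
    congr 1
    ext u
    simp
  rw [e1] at h1
  rw [e2] at h2
  have key := Finset.card_filter_add_card_filter_not (s := F) (fun u => 0 ≤ s * f u)
  have h3 : 2 * (F.filter (fun u => ¬ 0 ≤ s * f u)).card ≤ F.card := by
    rcases hs with rfl | rfl
    · refine le_trans ?_ h2
      have : (F.filter (fun u => ¬ 0 ≤ (1 : ℝ) * f u)) = F.filter (fun u => f u < 0) := by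
        apply Finset.filter_congr
        intro u _
        simp
      rw [this]
    · refine le_trans ?_ h1
      have : (F.filter (fun u => ¬ 0 ≤ (-1 : ℝ) * f u)) = F.filter (fun u => 0 < f u) := by
        apply Finset.filter_congr
        intro u _
        simp
      rw [this]
  omega

lemma exists_fun (hH : S_HALVE) {V : Type} [AddCommGroup V] [Module ℝ V] [FiniteDimensional ℝ V]
    {ι : Type} [Fintype ι] [Nonempty ι] (n : ℕ) (hV : finrank ℝ V = n + 1)
    (hι : Fintype.card ι ≤ n + 1) (s : ι → ℝ) (hs : ∀ i, s i = 1 ∨ s i = -1) (F : ι → Finset V) :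
    ∃ f : V →ₗ[ℝ] ℝ, f ≠ 0 ∧ ∀ i, (F i).card ≤ 2 * ((F i).filter (fun u => 0 ≤ s i * f u)).card := by
  classical
  obtain ⟨i₀⟩ := ‹Nonempty ι›
  have hc : Fintype.card {i : ι // i ≠ i₀} < finrank ℝ V := by
    rw [hV]
    have : Fintype.card {i : ι // i ≠ i₀} < Fintype.card ι :=
      Fintype.card_subtype_lt (x := i₀) (by simp)
    omega
  obtain ⟨f, hf, hf2⟩ := hH V {i : ι // i ≠ i₀} hc (fun i => F i)
  have hmain : ∀ i, i ≠ i₀ → (F i).card ≤ 2 * ((F i).filter (fun u => 0 ≤ s i * f u)).card := by
    intro i hi
    exact half_nonneg (F i) f (s i) (hs i) (hf2 ⟨i, hi⟩).1 (hf2 ⟨i, hi⟩).2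
  have hmain' : ∀ i, i ≠ i₀ → (F i).card ≤ 2 * ((F i).filter (fun u => 0 ≤ s i * (-f) u)).card := by
    intro i hi
    refine half_nonneg (F i) (-f) (s i) (hs i) ?_ ?_
    · have := (hf2 ⟨i, hi⟩).2
      simpa using this
    · have := (hf2 ⟨i, hi⟩).1
      simpa using this
  by_cases h0 : (F i₀).card ≤ 2 * ((F i₀).filter (fun u => 0 ≤ s i₀ * f u)).card
  · refine ⟨f, hf, fun i => ?_⟩
    by_cases hi : i = i₀
    · subst hi
      exact h0
    · exact hmain i hi
  · refine ⟨-f, neg_ne_zero.mpr hf, fun i => ?_⟩
    by_cases hi : i = i₀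
    · subst hi
      have key := Finset.card_filter_add_card_filter_not (s := F i) (fun u => 0 ≤ s i * f u)
      have hle : ((F i).filter (fun u => ¬ 0 ≤ s i * f u)).card ≤
          ((F i).filter (fun u => 0 ≤ s i * (-f) u)).card := by
        apply Finset.card_le_card
        intro u hu
        rw [Finset.mem_filter] at hu ⊢
        refine ⟨hu.1, ?_⟩
        have h2 := hu.2
        push Not at h2
        simp only [LinearMap.neg_apply]
        linarith [mul_neg (s i) (f u)]
      omega
    · exact hmain' i hi

lemma finrank_ker_eq {V : Type} [AddCommGroup V] [Module ℝ V] [FiniteDimensional ℝ V]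
    (n : ℕ) (hV : finrank ℝ V = n + 1) (f : V →ₗ[ℝ] ℝ) (hf : f ≠ 0) :
    finrank ℝ (LinearMap.ker f) = n := by
  have h1 := f.finrank_range_add_finrank_ker
  have h2 : LinearMap.range f = ⊤ := LinearMap.range_eq_top.mpr (LinearMap.surjective hf)
  rw [h2, finrank_top, finrank_self] at h1
  omega

theorem t_PAT : S_HALVE → S_PAT := by
  classical
  intro hH n c hc0 hc1 hSep V _ _ _ ι _ hV hι s hs F
  rcases isEmpty_or_nonempty ι with hemp | hne
  · exact ⟨F, fun i => isEmptyElim i, Or.inl (fun y _ a _ _ i => isEmptyElim i)⟩
  obtain ⟨f, hf, hf2⟩ := exists_fun hH n hV hι s hs F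
  -- the two parts
  set P : ι → Finset V := fun i => (F i).filter (fun u => 0 < s i * f u) with hP
  set Z : ι → Finset V := fun i => (F i).filter (fun u => f u = 0) with hZ
  have hPZ : ∀ i, (F i).card ≤ 2 * ((P i).card + (Z i).card) := by
    intro i
    refine le_trans (hf2 i) ?_
    have : ((F i).filter (fun u => 0 ≤ s i * f u)) ⊆ P i ∪ Z i := by
      intro u hu
      rw [Finset.mem_filter] at hu
      rw [Finset.mem_union, hP, hZ, Finset.mem_filter, Finset.mem_filter]
      rcases hu.2.lt_or_eq with h | h
      · exact Or.inl ⟨hu.1, h⟩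
      · right
        refine ⟨hu.1, ?_⟩
        rcases hs i with h' | h' <;> rw [h'] at h <;> linarith
    have h2 := Finset.card_le_card this
    have h3 := Finset.card_union_le (P i) (Z i)
    omega
  set J : Finset ι := Finset.univ.filter (fun i => ¬ (F i).card ≤ 4 * (P i).card) with hJ
  have hJZ : ∀ i ∈ J, (F i).card ≤ 4 * (Z i).card := by
    intro i hi
    rw [hJ, Finset.mem_filter] at hi
    have := hPZ i
    have h2 := hi.2
    omega
  have hJP : ∀ i, i ∉ J → (F i).card ≤ 4 * (P i).card := by
    intro i hi
    by_contra h
    exact hi (by rw [hJ, Finset.mem_filter]; exact ⟨Finset.mem_univ _, h⟩)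
  have hker := finrank_ker_eq n hV f hf
  -- the sets in the kernel
  have hJcard : J.card ≤ n ∨ J.card = n + 1 := by
    have := Finset.card_le_univ J
    omega
  rcases hJcard with hJn | hJn
  swap
  · refine ⟨fun i => if i ∈ J then Z i else P i, ?_, Or.inr ⟨J, LinearMap.ker f, ?_, ?_⟩⟩
    · intro i
      beta_reduce
      by_cases hi : i ∈ J
      · rw [if_pos hi]
        refine ⟨Finset.filter_subset _ _, ?_⟩
        have h1 : ((F i).card : ℝ) ≤ 4 * ((Z i).card : ℝ) := by exact_mod_cast hJZ i hi
        have h2 : (0 : ℝ) ≤ ((F i).card : ℝ) := by positivity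
        nlinarith
      · rw [if_neg hi]
        refine ⟨Finset.filter_subset _ _, ?_⟩
        have h1 : ((F i).card : ℝ) ≤ 4 * ((P i).card : ℝ) := by exact_mod_cast hJP i hi
        have h2 : (0 : ℝ) ≤ ((F i).card : ℝ) := by positivity
        nlinarith
    · rw [hker, hJn]
      omega
    · intro j hj x hx
      simp only [if_pos hj] at hx
      rw [hZ, Finset.mem_filter] at hx
      exact hx.2
  · set F' : {i // i ∈ J} → Finset (LinearMap.ker f) :=
      fun j => (Z j).subtype (fun u => u ∈ LinearMap.ker f) with hF'
    have hcard' : ∀ j, (F' j).card = (Z j).card := by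
      intro j
      rw [hF']
      simp only
      rw [Finset.card_subtype]
      congr 1
      apply Finset.filter_true_of_mem
      intro u hu
      rw [hZ, Finset.mem_filter] at hu
      exact hu.2
    obtain ⟨E', hE', hE'2⟩ := hSep (LinearMap.ker f) {i // i ∈ J} hker
      (by rw [Fintype.card_coe]; exact hJn) F'
    set E : ι → Finset V := fun i =>
      if h : i ∈ J then (E' ⟨i, h⟩).map (Function.Embedding.subtype _) else P i with hE
    have hEJ : ∀ (i) (h : i ∈ J), E i = (E' ⟨i, h⟩).map (Function.Embedding.subtype _) := by
      intro i h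
      rw [hE]
      simp only [dif_pos h]
    have hEN : ∀ (i) (_ : i ∉ J), E i = P i := by
      intro i h
      rw [hE]
      simp only [dif_neg h]
    refine ⟨E, ?_, ?_⟩
    · intro i
      by_cases hi : i ∈ J
      · rw [hEJ i hi]
        constructor
        · intro u hu
          rw [Finset.mem_map] at hu
          obtain ⟨v, hv, rfl⟩ := hu
          have h1 := (hE' ⟨i, hi⟩).1 hv
          rw [hF', Finset.mem_subtype] at h1
          exact (Finset.mem_filter.mp h1).1
        · rw [Finset.card_map]
          have h0 := (hE' ⟨i, hi⟩).2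
          rw [hcard'] at h0
          have h1 : ((F i).card : ℝ) ≤ 4 * ((Z i).card : ℝ) := by exact_mod_cast hJZ i hi
          have h2 : c * ((F i).card : ℝ) ≤ c * (4 * ((Z i).card : ℝ)) :=
            mul_le_mul_of_nonneg_left h1 hc0.le
          simp only at h0
          linarith
      · rw [hEN i hi]
        refine ⟨Finset.filter_subset _ _, ?_⟩
        have h1 : ((F i).card : ℝ) ≤ 4 * ((P i).card : ℝ) := by exact_mod_cast hJP i hi
        have h2 : (0 : ℝ) ≤ ((F i).card : ℝ) := by positivity
        nlinarith
    · rcases hE'2 with hind | hdeg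
      swap
      · right
        obtain ⟨J', U, hU, hJ'⟩ := hdeg
        refine ⟨J'.map (Function.Embedding.subtype _), U.map (LinearMap.ker f).subtype, ?_, ?_⟩
        · rw [Finset.card_map]
          exact lt_of_le_of_lt (Submodule.finrank_map_le _ _) hU
        · intro j hj x hx
          rw [Finset.mem_map] at hj
          obtain ⟨⟨j', hj'J⟩, hj', rfl⟩ := hj
          simp only [Function.Embedding.subtype_apply] at hx
          rw [hEJ j' hj'J, Finset.mem_map] at hx
          obtain ⟨v, hv, rfl⟩ := hx
          exact Submodule.mem_map.mpr ⟨v, hJ' _ hj' v hv, rfl⟩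
      · left
        intro y hy a ha hsum
        have hker0 : ∀ (i) (hi : i ∈ J), ∃ v : LinearMap.ker f,
            v ∈ convexHull ℝ ((E' ⟨i, hi⟩ : Finset (LinearMap.ker f)) : Set (LinearMap.ker f)) ∧
              (v : V) = y i := by
          intro i hi
          have h1 := hy i
          rw [hEJ i hi, Finset.coe_map] at h1
          have h2 : (⇑(Function.Embedding.subtype (fun u => u ∈ LinearMap.ker f)) :
              LinearMap.ker f → V) = ⇑(LinearMap.ker f).subtype := rfl
          have h3 := (LinearMap.ker f).subtype.image_convexHull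
            ((E' ⟨i, hi⟩ : Finset (LinearMap.ker f)) : Set (LinearMap.ker f))
          have h4 : y i ∈ ⇑(LinearMap.ker f).subtype '' (convexHull ℝ
              ((E' ⟨i, hi⟩ : Finset (LinearMap.ker f)) : Set (LinearMap.ker f))) := by
            rw [h3]
            exact h1
          obtain ⟨v, hv, hv2⟩ := h4
          exact ⟨v, hv, hv2⟩
        have hfJ : ∀ i ∈ J, f (y i) = 0 := by
          intro i hi
          obtain ⟨v, _, hv⟩ := hker0 i hi
          rw [← hv]
          exact v.2
        have hfN : ∀ i, i ∉ J → 0 < s i * f (y i) := by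
          intro i hi
          have h1 := hy i
          rw [hEN i hi] at h1
          have hconv : Convex ℝ {u : V | 0 < s i * f u} := by
            have : {u : V | 0 < s i * f u} = (s i • f) ⁻¹' (Set.Ioi 0) := by
              ext u
              simp
            rw [this]
            exact (convex_Ioi 0).linear_preimage _
          have hsub : ((P i : Finset V) : Set V) ⊆ {u : V | 0 < s i * f u} := by
            intro u hu
            rw [Finset.mem_coe, hP, Finset.mem_filter] at hu
            exact hu.2
          exact convexHull_min hsub hconv h1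
        have hss : ∀ i, s i * s i = 1 := by
          intro i
          rcases hs i with h | h <;> rw [h] <;> norm_num
        have hterm : ∀ i, 0 ≤ a i * f (y i) := by
          intro i
          by_cases hi : i ∈ J
          · rw [hfJ i hi, mul_zero]
          · have h1 : a i * f (y i) = (a i * s i) * (s i * f (y i)) := by
              calc a i * f (y i) = a i * (s i * s i) * f (y i) := by rw [hss i, mul_one]
                _ = (a i * s i) * (s i * f (y i)) := by ring
            rw [h1]
            exact mul_nonneg (ha i) (hfN i hi).le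
        have hsumf : ∑ i, a i * f (y i) = 0 := by
          have := congrArg f hsum
          rw [map_sum, map_zero] at this
          simpa using this
        have hzero : ∀ i, a i * f (y i) = 0 := by
          intro i
          exact (Finset.sum_eq_zero_iff_of_nonneg (fun i _ => hterm i)).mp hsumf i
            (Finset.mem_univ i)
        have haN : ∀ i, i ∉ J → a i = 0 := by
          intro i hi
          have h1 := hzero i
          rcases mul_eq_zero.mp h1 with h | h
          · exact h
          · exfalso
            have := hfN i hi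
            rw [h, mul_zero] at this
            exact lt_irrefl _ this
        choose v hv hv2 using hker0
        have hli := hind (fun j => v j.1 j.2) (fun j => hv j.1 j.2)
        rw [Fintype.linearIndependent_iff] at hli
        have hsumJ : ∑ j : {i // i ∈ J}, a j • v j.1 j.2 = 0 := by
          apply Subtype.ext
          rw [Submodule.coe_sum, Submodule.coe_zero]
          have h1 : ∑ i, a i • y i = ∑ i ∈ J, a i • y i := by
            symm
            apply Finset.sum_subset (Finset.subset_univ J)
            intro i _ hi
            rw [haN i hi, zero_smul]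
          rw [h1, ← Finset.sum_coe_sort] at hsum
          rw [← hsum]
          apply Finset.sum_congr rfl
          intro j _
          rw [Submodule.coe_smul, hv2]
        have haJ := hli (fun j => a j) hsumJ
        intro i
        by_cases hi : i ∈ J
        · exact haJ ⟨i, hi⟩
        · exact haN i hi

end Run7.h923.PACH
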